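import Pool.Agent.N229.SC.INJ

/-!
Project SC (Schiffer), part NB: the domain is not a disc (helper606).
-/

set_option autoImplicit false

open Set Filter Topology MeasureTheory

namespace Pool.Agent.Run7.h606.SC

open Pool.Agent.N229.SC

theorem center_of_ball_subset {a b : ℂ} {s : ℝ} (hs : 0 < s)
    (h : Metric.ball a s ⊆ Metric.ball b s) : a = b := by
  by_contra hab
  have hd : 0 < ‖a - b‖ := norm_pos_iff.2 (sub_ne_zero.2 hab)
  obtain ⟨t, ht0, hts, ht⟩ : ∃ t : ℝ, 0 < t ∧ t < s ∧ s < t + ‖a - b‖ := by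
    refine ⟨max (s / 2) (s - ‖a - b‖ / 2), ?_, ?_, ?_⟩
    · exact lt_max_of_lt_left (by linarith)
    · exact max_lt (by linarith) (by linarith)
    · have := le_max_right (s / 2) (s - ‖a - b‖ / 2)
      linarith
  have hx : a + ((t / ‖a - b‖ : ℝ) : ℂ) * (a - b) ∈ Metric.ball a s := by
    rw [mem_ball_iff_norm]
    have : a + ((t / ‖a - b‖ : ℝ) : ℂ) * (a - b) - a = ((t / ‖a - b‖ : ℝ) : ℂ) * (a - b) := by ring
    rw [this, norm_mul, Complex.norm_real, Real.norm_of_nonneg (by positivity),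
      div_mul_cancel₀ _ hd.ne']
    exact hts
  have hy := h hx
  rw [mem_ball_iff_norm] at hy
  have : a + ((t / ‖a - b‖ : ℝ) : ℂ) * (a - b) - b = ((1 + t / ‖a - b‖ : ℝ) : ℂ) * (a - b) := by
    push_cast; ring
  rw [this, norm_mul, Complex.norm_real, Real.norm_of_nonneg (by positivity), add_mul, one_mul,
      div_mul_cancel₀ _ hd.ne'] at hy
  linarith

theorem nb : S_NB := by
  intro ρ r f hf hN a s h
  have hsub : Metric.ball (0 : ℂ) 1 ⊆ Metric.ball 0 r := Metric.ball_subset_ball hf.r_gt.le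
  have hinj : InjOn f (Metric.ball 0 r) := (proof_INJ ρ r f hf).2
  obtain ⟨ω, hω1, hω, hsym⟩ := hN.sym
  have h0 : (0 : ℂ) ∈ Om f := ⟨0, by simp, hf.f_zero⟩
  have hs : 0 < s := by
    rw [h] at h0
    exact Metric.pos_of_mem_ball h0
  have hωm : ∀ x ∈ Om f, ω * x ∈ Om f := by
    rintro x ⟨z, hz, rfl⟩
    have hz' : ‖z‖ < 1 := by simpa using hz
    refine ⟨ω * z, ?_, hsym z hz'.le⟩
    simpa [hω1] using hz'
  have hab : ω * a = a := by
    refine center_of_ball_subset hs ?_
    intro x hx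
    rw [mem_ball_iff_norm] at hx
    have hω0 : ω ≠ 0 := by
      intro h0
      rw [h0, norm_zero] at hω1
      norm_num at hω1
    have h1 : ω⁻¹ * x ∈ Metric.ball a s := by
      rw [mem_ball_iff_norm]
      have : ω⁻¹ * x - a = ω⁻¹ * (x - ω * a) := by field_simp
      rw [this, norm_mul, norm_inv, hω1, inv_one, one_mul]
      exact hx
    rw [← h] at h1
    have h2 := hωm _ h1
    rw [h] at h2
    rwa [mul_inv_cancel_left₀ hω0] at h2
  have ha : a = 0 := by
    have h1 : (ω - 1) * a = 0 := by rw [sub_mul, hab]; ring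
    rcases mul_eq_zero.1 h1 with h2 | h2
    · exact absurd (sub_eq_zero.1 h2) hω
    · exact h2
  subst ha
  have hbd : ∀ z : ℂ, ‖z‖ = 1 → ‖f z‖ = s := by
    intro z hz
    have hzr : z ∈ Metric.ball (0 : ℂ) r := by
      have := hf.r_gt
      simpa [hz] using this
    have hc : ContinuousAt f z :=
      (hf.f_diff.differentiableAt (Metric.isOpen_ball.mem_nhds hzr)).continuousAt
    have hzc : z ∈ closure (Metric.ball (0 : ℂ) 1) := by
      rw [closure_ball _ one_ne_zero]
      simp [hz]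
    have h1 : f z ∈ closure (Om f) := mem_closure_image hc hzc
    rw [h, closure_ball _ hs.ne'] at h1
    have h2 : f z ∉ Om f := by
      rintro ⟨w, hw, hwz⟩
      have h3 := hinj (hsub hw) hzr hwz
      subst h3
      have hw' : ‖w‖ < 1 := by simpa using hw
      linarith
    rw [h] at h2
    have h3 : ‖f z‖ ≤ s := by simpa using h1
    have h4 : ¬ ‖f z‖ < s := by simpa using h2
    linarith
  obtain ⟨z₁, z₂, h1, h2, h12⟩ := hN.nc
  exact h12 ((hbd z₁ h1).trans (hbd z₂ h2).symm)

end Pool.Agent.Run7.h606.SC
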