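import Pool.Agent.Run7.h606.SC.Wk0

/-!
Project SC (Schiffer), part WK3: the second weak identity (helper606).
-/

set_option autoImplicit false

open Set Filter Topology MeasureTheory

namespace Pool.Agent.Run7.h606.SC

open Pool.Agent.N229.SC

theorem clm_eq' (L : ℂ →L[ℝ] ℝ) (a w : ℂ) :
    L (a * w) = w.re * L a + w.im * L (a * Complex.I) := by
  have h : a * w = w.re • a + w.im • (a * Complex.I) := by
    conv_lhs => rw [← Complex.re_add_im w]
    simp only [Complex.real_smul]; ring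
  rw [h, map_add, map_smul, map_smul]; rfl

theorem wk3 : S_WK3 := by
  intro ρ r r' c f U S hf hr' hrr hC φ hφ hφc
  have hsub : Metric.ball (0 : ℂ) 1 ⊆ Metric.ball 0 r' := Metric.ball_subset_ball hr'.le
  have hsub2 : Metric.ball (0 : ℂ) r' ⊆ Metric.ball 0 r := Metric.ball_subset_ball hrr
  have hcs : Metric.closedBall (0 : ℂ) 1 ⊆ Metric.ball 0 r' := sub_closed hr'
  set G : ℂ → ℂ := fun z => (φ (f z) : ℝ) • ((starRingEnd ℂ) (S z)) with hG
  set A : ℂ → ℝ := fun z => fderiv ℝ φ (f z) (deriv f z * (starRingEnd ℂ) (S z)) with hA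
  set B : ℂ → ℝ := fun z => ‖deriv f z‖ ^ 2 * (U z * φ (f z)) with hB
  have hUc : ContDiffOn ℝ 1 U (Metric.ball 0 r') := U_contDiffOn hC
  have hfc : ContDiffOn ℝ 1 f (Metric.ball 0 r') := (f_contDiffOn hf).mono hsub2
  have hf'c : ContDiffOn ℝ 1 (deriv f) (Metric.ball 0 r') := (f'_contDiffOn hf).mono hsub2
  have hψc : ContDiffOn ℝ 1 (fun z => φ (f z)) (Metric.ball 0 r') := hφ.comp_contDiffOn hfc
  have hconj : ContDiffOn ℝ 1 (fun z => (starRingEnd ℂ) (S z)) (Metric.ball 0 r') :=
    Complex.conjCLE.contDiff.comp_contDiffOn hC.S_smooth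
  have hGc : ContDiffOn ℝ 1 G (Metric.ball 0 r') := hψc.smul hconj
  have hG0 : ∀ z : ℂ, ‖z‖ = 1 → G z = 0 := by
    intro z hz
    simp [hG, hC.S_bd z hz]
  have hdiv := div_complex hr' G hGc hG0
  have key : ∀ z ∈ Metric.ball (0 : ℂ) 1,
      (fderiv ℝ G z 1).re + (fderiv ℝ G z Complex.I).im = A z - B z := by
    intro z hz
    have hz' := hsub hz
    have hz'' := hsub2 hz'
    have hφd : HasFDerivAt φ (fderiv ℝ φ (f z)) (f z) :=
      (hφ.differentiable (by norm_num)).differentiableAt.hasFDerivAt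
    have hfd : HasFDerivAt f ((ContinuousLinearMap.toSpanSingleton ℂ (deriv f z)).restrictScalars ℝ) z :=
      (f_has hf hz'').hasFDerivAt.restrictScalars ℝ
    have hSd : HasFDerivAt S (fderiv ℝ S z) z :=
      ((hC.S_smooth.differentiableOn (by norm_num)).differentiableAt
        (Metric.isOpen_ball.mem_nhds hz')).hasFDerivAt
    have hψ := hφd.comp z hfd
    have hcj := (Complex.conjCLE.toContinuousLinearMap.hasFDerivAt (x := S z)).comp z hSd
    have h2 := hψ.smul hcj
    have h3 : fderiv ℝ G z = _ := h2.fderiv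
    rw [h3]
    have e1 := clm_eq' (fderiv ℝ φ (f z)) (deriv f z) ((starRingEnd ℂ) (S z))
    have e2 := hC.lap z hz'
    simp only [hA, hB]
    rw [e1]
    have e3 : ‖deriv f z‖ ^ 2 * (U z * φ (f z)) =
        -φ (f z) * ((fderiv ℝ S z 1).re - (fderiv ℝ S z Complex.I).im) := by
      rw [e2]; ring
    rw [e3]
    simp [Complex.mul_re, Complex.mul_im]
    ring
  have hint1 : Integrable A (volume.restrict (Metric.ball (0 : ℂ) 1)) := by
    refine int_of_cont _ ?_
    exact ((hφ.continuous_fderiv (by norm_num)).comp_continuousOn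
      (hfc.continuousOn.mono hcs)).clm_apply
        ((hf'c.continuousOn.mono hcs).mul (hconj.continuousOn.mono hcs))
  have hint2 : Integrable B (volume.restrict (Metric.ball (0 : ℂ) 1)) := by
    refine int_of_cont _ ?_
    exact ((hf'c.continuousOn.mono hcs).norm.pow 2).mul
      ((hUc.continuousOn.mono hcs).mul (hψc.continuousOn.mono hcs))
  rw [setIntegral_congr_fun Metric.isOpen_ball.measurableSet key, integral_sub hint1 hint2] at hdiv
  rw [cv ρ r f hf, cv ρ r f hf, one_mul]
  have hl : ∫ z in Metric.ball (0 : ℂ) 1, ‖deriv f z‖ ^ 2 *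
      (fderiv ℝ φ (f z) (GF f S (f z))) = ∫ z in Metric.ball (0 : ℂ) 1, A z := by
    refine setIntegral_congr_fun Metric.isOpen_ball.measurableSet fun z hz => ?_
    simp only [hA, GF]
    rw [inv_apply hf hz]
    have hne := der_ne hf (hsub2 (hsub hz))
    have e4 : deriv f z * (starRingEnd ℂ) (S z) =
        (‖deriv f z‖ ^ 2 : ℝ) • (starRingEnd ℂ) (S z / deriv f z) := by
      have h5 : (starRingEnd ℂ) (deriv f z) * deriv f z = ((‖deriv f z‖ ^ 2 : ℝ) : ℂ) := by
        rw [← Complex.normSq_eq_norm_sq, Complex.normSq_eq_conj_mul_self]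
      have h6 : (starRingEnd ℂ) (deriv f z) ≠ 0 := by
        rwa [Ne, map_eq_zero]
      rw [Complex.real_smul, ← h5, map_div₀]
      field_simp
    rw [e4, map_smul, smul_eq_mul]
  have hr : ∫ z in Metric.ball (0 : ℂ) 1, ‖deriv f z‖ ^ 2 *
      (uF f U (f z) * φ (f z)) = ∫ z in Metric.ball (0 : ℂ) 1, B z := by
    refine setIntegral_congr_fun Metric.isOpen_ball.measurableSet fun z hz => ?_
    simp only [hB, uF]
    rw [inv_apply hf hz]
  rw [hl, hr]
  linarith

end Pool.Agent.Run7.h606.SC
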