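import Pool.Agent.N229.SC.INJ

/-!
Project SC (Schiffer), part CV: change of variables (helper606).
-/

set_option autoImplicit false

open Set Filter Topology MeasureTheory

namespace Pool.Agent.Run7.h606.SC

open Pool.Agent.N229.SC

theorem det_mul_complex (c : ℂ) :
    ((ContinuousLinearMap.toSpanSingleton ℂ c : ℂ →L[ℂ] ℂ).restrictScalars ℝ).det = ‖c‖ ^ 2 := by
  have h1 : ((ContinuousLinearMap.toSpanSingleton ℂ c : ℂ →L[ℂ] ℂ).restrictScalars ℝ).det =
      (((ContinuousLinearMap.toSpanSingleton ℂ c : ℂ →L[ℂ] ℂ) : ℂ →ₗ[ℂ] ℂ).restrictScalars ℝ).det := rfl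
  rw [h1, LinearMap.det_restrictScalars, Algebra.norm_complex_eq]
  simp [Complex.normSq_eq_norm_sq]

theorem cv : S_CV := by
  intro ρ r f hf ψ
  have hsub : Metric.ball (0 : ℂ) 1 ⊆ Metric.ball 0 r := Metric.ball_subset_ball hf.r_gt.le
  have hinj : InjOn f (Metric.ball 0 1) := (proof_INJ ρ r f hf).2.mono hsub
  have hd : ∀ z ∈ Metric.ball (0 : ℂ) 1, HasFDerivWithinAt f
      ((ContinuousLinearMap.toSpanSingleton ℂ (deriv f z) : ℂ →L[ℂ] ℂ).restrictScalars ℝ)
      (Metric.ball (0 : ℂ) 1) z := by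
    intro z hz
    have h1 : HasDerivAt f (deriv f z) z :=
      (hf.f_diff.differentiableAt (Metric.isOpen_ball.mem_nhds (hsub hz))).hasDerivAt
    exact (h1.hasFDerivAt.restrictScalars ℝ).hasFDerivWithinAt
  have h := integral_image_eq_integral_abs_det_fderiv_smul (volume : Measure ℂ)
    Metric.isOpen_ball.measurableSet hd hinj ψ
  unfold Om
  rw [h]
  refine integral_congr_ae (Eventually.of_forall fun z => ?_)
  simp only [smul_eq_mul]
  rw [det_mul_complex, abs_of_nonneg (by positivity)]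

end Pool.Agent.Run7.h606.SC
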