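import Pool.Agent.N229.SC.Stm

/-!
Project SC (Schiffer), part DIV: the integral of a derivative (helper606).
-/

set_option autoImplicit false

open Set Filter Topology MeasureTheory

namespace Pool.Agent.Run7.h606.SC

open Pool.Agent.N229.SC

theorem lip_of_ball (F : ℂ → ℝ) (B : ℝ) (hc : Continuous F) (h0 : ∀ z : ℂ, 1 ≤ ‖z‖ → F z = 0)
    (hd : ContDiffOn ℝ 1 F (Metric.ball 0 1))
    (hB : ∀ z ∈ Metric.ball (0 : ℂ) 1, ‖fderiv ℝ F z‖ ≤ B) :
    LipschitzWith B.toNNReal F := by
  have hB0 : 0 ≤ B := (norm_nonneg _).trans (hB 0 (by simp))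
  have h1 : LipschitzOnWith B.toNNReal F (Metric.ball 0 1) := by
    refine Convex.lipschitzOnWith_of_nnnorm_fderiv_le (𝕜 := ℝ) (fun z hz => ?_) (fun z hz => ?_)
      (convex_ball _ _)
    · exact (hd.differentiableOn (by norm_num)).differentiableAt (Metric.isOpen_ball.mem_nhds hz)
    · have := hB z hz
      rw [← NNReal.coe_le_coe, Real.coe_toNNReal _ hB0]
      exact this
  have h2 : LipschitzOnWith B.toNNReal F (Metric.closedBall 0 1) := by
    have := LipschitzOnWith.closure hc.continuousOn h1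
    rwa [closure_ball _ one_ne_zero] at this
  have h3 : ∀ z w : ℂ, ‖z‖ < 1 → 1 ≤ ‖w‖ → |F z - F w| ≤ B * ‖z - w‖ := by
    intro z w hz hw
    have hcont : ContinuousOn (fun t : ℝ => ‖z + (t : ℂ) * (w - z)‖) (Icc 0 1) := by fun_prop
    have h01 : (1 : ℝ) ∈ Icc ‖z + ((0 : ℝ) : ℂ) * (w - z)‖ ‖z + ((1 : ℝ) : ℂ) * (w - z)‖ := by
      constructor
      · simpa using hz.le
      · simpa using hw
    obtain ⟨t, ht, ht1⟩ := intermediate_value_Icc zero_le_one hcont h01
    have h4 : F (z + (t : ℂ) * (w - z)) = 0 := h0 _ (le_of_eq ht1.symm)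
    have h5 := h2.dist_le_mul z (by simpa using hz.le) (z + (t : ℂ) * (w - z))
      (by simpa using le_of_eq ht1)
    rw [h0 w hw]
    rw [h4, Real.coe_toNNReal _ hB0, dist_eq_norm, dist_eq_norm] at h5
    have h6 : z - (z + (t : ℂ) * (w - z)) = ((t : ℝ) : ℂ) * (z - w) := by ring
    rw [h6, norm_mul, Complex.norm_real, Real.norm_of_nonneg ht.1, Real.norm_eq_abs] at h5
    have h7 : t * ‖z - w‖ ≤ ‖z - w‖ := by
      have := norm_nonneg (z - w)
      nlinarith [ht.2]
    calc |F z - 0| ≤ B * (t * ‖z - w‖) := h5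
      _ ≤ B * ‖z - w‖ := by gcongr
  refine LipschitzWith.of_dist_le_mul fun z w => ?_
  rw [Real.coe_toNNReal _ hB0, Real.dist_eq, dist_eq_norm]
  rcases lt_or_ge ‖z‖ 1 with hz | hz <;> rcases lt_or_ge ‖w‖ 1 with hw | hw
  · have := h2.dist_le_mul z (by simpa using hz.le) w (by simpa using hw.le)
    rwa [Real.coe_toNNReal _ hB0, Real.dist_eq, dist_eq_norm] at this
  · exact h3 z w hz hw
  · have := h3 w z hw hz
    rwa [abs_sub_comm, norm_sub_rev] at this
  · rw [h0 z hz, h0 w hw]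
    simp only [sub_zero, abs_zero]
    positivity

theorem div : S_DIV := by
  intro F B hc h0 hd hB v
  have hL := lip_of_ball F B hc h0 hd hB
  have hcs : HasCompactSupport F := by
    refine HasCompactSupport.intro (isCompact_closedBall (0 : ℂ) 1) fun z hz => h0 z ?_
    have : ¬ ‖z‖ ≤ 1 := by simpa using hz
    linarith
  have h1 := LipschitzWith.integral_lineDeriv_mul_eq (μ := (volume : Measure ℂ))
    (LipschitzWith.const (1 : ℝ)) hL hcs (-v)
  simp only [neg_neg, mul_one] at h1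
  have h2 : ∀ x : ℂ, lineDeriv ℝ (fun _ : ℂ => (1 : ℝ)) x (-v) = 0 := by
    intro x
    simp [lineDeriv]
  simp only [h2, zero_mul, integral_zero] at h1
  have h3 : ∫ z in (Metric.ball (0 : ℂ) 1)ᶜ, lineDeriv ℝ F z v = 0 := by
    have h4 : ∀ᵐ z : ℂ ∂volume, z ∉ Metric.sphere (0 : ℂ) 1 := by
      exact measure_eq_zero_iff_ae_notMem.1 (Measure.addHaar_sphere volume (0 : ℂ) 1)
    refine integral_eq_zero_of_ae ?_
    rw [Filter.EventuallyEq, ae_restrict_iff' Metric.isOpen_ball.measurableSet.compl]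
    filter_upwards [h4] with z hz1 hz2
    have hz3 : 1 < ‖z‖ := by
      have h5 : ¬ ‖z‖ < 1 := by simpa using hz2
      have h6 : ¬ ‖z‖ = 1 := by simpa using hz1
      exact lt_of_le_of_ne (not_lt.1 h5) (Ne.symm h6)
    have h5 : F =ᶠ[𝓝 z] fun _ => 0 := by
      have : {w : ℂ | 1 < ‖w‖} ∈ 𝓝 z := (isOpen_lt continuous_const continuous_norm).mem_nhds hz3
      filter_upwards [this] with w hw
      exact h0 w (le_of_lt hw)
    have h6 : HasFDerivAt F (0 : ℂ →L[ℝ] ℝ) z := (hasFDerivAt_const 0 z).congr_of_eventuallyEq h5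
    have h7 := h6.hasLineDerivAt v
    simpa using h7.lineDeriv
  have h4 : ∫ z in Metric.ball (0 : ℂ) 1, lineDeriv ℝ F z v =
      ∫ z in Metric.ball (0 : ℂ) 1, fderiv ℝ F z v := by
    refine setIntegral_congr_fun Metric.isOpen_ball.measurableSet fun z hz => ?_
    have hdz : DifferentiableAt ℝ F z :=
      (hd.differentiableOn (by norm_num)).differentiableAt (Metric.isOpen_ball.mem_nhds hz)
    exact hdz.lineDeriv_eq_fderiv
  have hint : Integrable (fun z => lineDeriv ℝ F z v) (volume : Measure ℂ) := by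
    have hm : AEStronglyMeasurable (fun z => lineDeriv ℝ F z v) (volume : Measure ℂ) :=
      (measurable_lineDeriv hc).aestronglyMeasurable
    have hbd : ∀ z, ‖lineDeriv ℝ F z v‖ ≤ (B.toNNReal : ℝ) * ‖v‖ := by
      intro z
      exact norm_lineDeriv_le_of_lipschitz ℝ hL
    have hs : ∀ z, z ∉ Metric.closedBall (0 : ℂ) 1 → lineDeriv ℝ F z v = 0 := by
      intro z hz
      have hz3 : 1 < ‖z‖ := by simpa using hz
      have h5 : F =ᶠ[𝓝 z] fun _ => 0 := by
        have : {w : ℂ | 1 < ‖w‖} ∈ 𝓝 z := (isOpen_lt continuous_const continuous_norm).mem_nhds hz3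
        filter_upwards [this] with w hw
        exact h0 w (le_of_lt hw)
      have h6 : HasFDerivAt F (0 : ℂ →L[ℝ] ℝ) z := (hasFDerivAt_const 0 z).congr_of_eventuallyEq h5
      simpa using (h6.hasLineDerivAt v).lineDeriv
    rw [← integrableOn_iff_integrable_of_support_subset (s := Metric.closedBall (0 : ℂ) 1)
      (fun z hz => by by_contra h; exact hz (hs z h))]
    refine Measure.integrableOn_of_bounded (M := (B.toNNReal : ℝ) * ‖v‖) ?_ hm
      (Eventually.of_forall hbd)
    exact (isCompact_closedBall _ _).measure_lt_top.ne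
  rw [← h4]
  have h5 := integral_add_compl (μ := (volume : Measure ℂ))
    (Metric.isOpen_ball (x := (0 : ℂ)) (ε := 1)).measurableSet hint
  rw [h3, add_zero] at h5
  rw [h5, ← h1]

end Pool.Agent.Run7.h606.SC
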