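import Pool.Agent.Run7.h606.SC.Div
import Pool.Agent.Run7.h606.SC.Cv

/-!
Project SC (Schiffer), common lemmas of the parts WK2 and WK3 (helper606).
-/

set_option autoImplicit false

open Set Filter Topology MeasureTheory

namespace Pool.Agent.Run7.h606.SC

open Pool.Agent.N229.SC

theorem sub_closed {r' : ℝ} (hr : 1 < r') : Metric.closedBall (0 : ℂ) 1 ⊆ Metric.ball 0 r' :=
  Metric.closedBall_subset_ball hr

theorem div_real {r' : ℝ} (hr : 1 < r') (F : ℂ → ℝ) (hF : ContDiffOn ℝ 1 F (Metric.ball 0 r'))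
    (h0 : ∀ z : ℂ, ‖z‖ = 1 → F z = 0) (v : ℂ) :
    ∫ z in Metric.ball (0 : ℂ) 1, fderiv ℝ F z v = 0 := by
  classical
  have hsub : Metric.ball (0 : ℂ) 1 ⊆ Metric.ball 0 r' := Metric.ball_subset_ball hr.le
  have hcF : ContinuousOn (fderiv ℝ F) (Metric.ball 0 r') :=
    hF.continuousOn_fderiv_of_isOpen Metric.isOpen_ball (by norm_num)
  obtain ⟨B, hB⟩ := (isCompact_closedBall (0 : ℂ) 1).exists_bound_of_continuousOn
    (hcF.mono (sub_closed hr))
  have heq : ∀ z ∈ Metric.ball (0 : ℂ) 1,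
      fderiv ℝ ((Metric.ball (0 : ℂ) 1).indicator F) z = fderiv ℝ F z := by
    intro z hz
    refine Filter.EventuallyEq.fderiv_eq ?_
    filter_upwards [Metric.isOpen_ball.mem_nhds hz] with w hw
    exact Set.indicator_of_mem hw F
  have h1 := div ((Metric.ball (0 : ℂ) 1).indicator F) B ?_ ?_ ?_ ?_ v
  · rw [← h1]
    refine setIntegral_congr_fun Metric.isOpen_ball.measurableSet fun z hz => ?_
    rw [heq z hz]
  · refine continuous_indicator ?_ ?_
    · intro a ha
      rw [frontier_ball _ one_ne_zero] at ha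
      exact h0 a (by simpa using ha)
    · rw [closure_ball _ one_ne_zero]
      exact hF.continuousOn.mono (sub_closed hr)
  · intro z hz
    exact Set.indicator_of_notMem (by simpa using hz) F
  · exact (hF.mono hsub).congr fun z hz => Set.indicator_of_mem hz F
  · intro z hz
    rw [heq z hz]
    exact hB z (Metric.ball_subset_closedBall hz)

theorem fderiv_re_apply {G : ℂ → ℂ} {L : ℂ →L[ℝ] ℂ} {z : ℂ} (h : HasFDerivAt G L z) (w : ℂ) :
    fderiv ℝ (fun z => (G z).re) z w = (L w).re := by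
  have h1 : HasFDerivAt (fun z => (G z).re) (Complex.reCLM.comp L) z :=
    Complex.reCLM.hasFDerivAt.comp z h
  rw [h1.fderiv]; rfl

theorem fderiv_im_apply {G : ℂ → ℂ} {L : ℂ →L[ℝ] ℂ} {z : ℂ} (h : HasFDerivAt G L z) (w : ℂ) :
    fderiv ℝ (fun z => (G z).im) z w = (L w).im := by
  have h1 : HasFDerivAt (fun z => (G z).im) (Complex.imCLM.comp L) z :=
    Complex.imCLM.hasFDerivAt.comp z h
  rw [h1.fderiv]; rfl

theorem div_complex {r' : ℝ} (hr : 1 < r') (G : ℂ → ℂ) (hG : ContDiffOn ℝ 1 G (Metric.ball 0 r'))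
    (h0 : ∀ z : ℂ, ‖z‖ = 1 → G z = 0) :
    ∫ z in Metric.ball (0 : ℂ) 1, ((fderiv ℝ G z 1).re + (fderiv ℝ G z Complex.I).im) = 0 := by
  have hsub : Metric.ball (0 : ℂ) 1 ⊆ Metric.ball 0 r' := Metric.ball_subset_ball hr.le
  have hd : ∀ z ∈ Metric.ball (0 : ℂ) r', HasFDerivAt G (fderiv ℝ G z) z := fun z hz =>
    ((hG.differentiableOn (by norm_num)).differentiableAt
      (Metric.isOpen_ball.mem_nhds hz)).hasFDerivAt
  have hre := div_real hr (fun z => (G z).re) (Complex.reCLM.contDiff.comp_contDiffOn hG)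
    (fun z hz => by simp [h0 z hz]) 1
  have him := div_real hr (fun z => (G z).im) (Complex.imCLM.contDiff.comp_contDiffOn hG)
    (fun z hz => by simp [h0 z hz]) Complex.I
  have hc : ContinuousOn (fderiv ℝ G) (Metric.closedBall 0 1) :=
    (hG.continuousOn_fderiv_of_isOpen Metric.isOpen_ball (by norm_num)).mono (sub_closed hr)
  have h1 : ∫ z in Metric.ball (0 : ℂ) 1, (fderiv ℝ G z 1).re = 0 := by
    rw [← hre]
    refine setIntegral_congr_fun Metric.isOpen_ball.measurableSet fun z hz => ?_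
    exact (fderiv_re_apply (hd z (hsub hz)) 1).symm
  have h2 : ∫ z in Metric.ball (0 : ℂ) 1, (fderiv ℝ G z Complex.I).im = 0 := by
    rw [← him]
    refine setIntegral_congr_fun Metric.isOpen_ball.measurableSet fun z hz => ?_
    exact (fderiv_im_apply (hd z (hsub hz)) Complex.I).symm
  have hint : ∀ g : ℂ → ℝ, ContinuousOn g (Metric.closedBall 0 1) →
      Integrable g (volume.restrict (Metric.ball (0 : ℂ) 1)) := fun g hg =>
    (hg.integrableOn_compact (isCompact_closedBall _ _)).mono_set Metric.ball_subset_closedBall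
  rw [integral_add (hint _ ?_) (hint _ ?_), h1, h2, add_zero]
  · exact Complex.continuous_re.comp_continuousOn (hc.clm_apply continuousOn_const)
  · exact Complex.continuous_im.comp_continuousOn (hc.clm_apply continuousOn_const)

theorem int_of_cont (g : ℂ → ℝ) (hg : ContinuousOn g (Metric.closedBall 0 1)) :
    Integrable g (volume.restrict (Metric.ball (0 : ℂ) 1)) :=
  (hg.integrableOn_compact (isCompact_closedBall _ _)).mono_set Metric.ball_subset_closedBall

section
variable {ρ r r' c : ℝ} {f : ℂ → ℂ} {U : ℂ → ℝ} {S : ℂ → ℂ}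

theorem inv_apply (hf : Conf ρ r f) {z : ℂ} (hz : z ∈ Metric.ball (0 : ℂ) 1) :
    Function.invFunOn f (Metric.ball 0 1) (f z) = z := by
  have hsub : Metric.ball (0 : ℂ) 1 ⊆ Metric.ball 0 r := Metric.ball_subset_ball hf.r_gt.le
  have hinj : InjOn f (Metric.ball 0 1) := (proof_INJ ρ r f hf).2.mono hsub
  exact hinj (Function.invFunOn_mem ⟨z, hz, rfl⟩) hz (Function.invFunOn_eq ⟨z, hz, rfl⟩)

theorem der_ne (hf : Conf ρ r f) {z : ℂ} (hz : z ∈ Metric.ball (0 : ℂ) r) : deriv f z ≠ 0 := by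
  intro h0
  have := hf.f_der z hz
  rw [h0, zero_sub, norm_neg, Complex.norm_real, Real.norm_of_nonneg hf.rho_pos.le] at this
  have := hf.rho_pos
  linarith

theorem f_has (hf : Conf ρ r f) {z : ℂ} (hz : z ∈ Metric.ball (0 : ℂ) r) :
    HasDerivAt f (deriv f z) z :=
  (hf.f_diff.differentiableAt (Metric.isOpen_ball.mem_nhds hz)).hasDerivAt

theorem f'_has (hf : Conf ρ r f) {z : ℂ} (hz : z ∈ Metric.ball (0 : ℂ) r) :
    HasDerivAt (deriv f) (deriv (deriv f) z) z :=
  ((hf.f_diff.deriv Metric.isOpen_ball).differentiableAt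
    (Metric.isOpen_ball.mem_nhds hz)).hasDerivAt

theorem f_contDiffOn (hf : Conf ρ r f) : ContDiffOn ℝ 1 f (Metric.ball 0 r) :=
  (hf.f_diff.contDiffOn Metric.isOpen_ball).restrict_scalars ℝ

theorem f'_contDiffOn (hf : Conf ρ r f) : ContDiffOn ℝ 1 (deriv f) (Metric.ball 0 r) :=
  ((hf.f_diff.deriv Metric.isOpen_ball).contDiffOn Metric.isOpen_ball).restrict_scalars ℝ

theorem U_contDiffOn (hC : Cl r' c f U S) : ContDiffOn ℝ 1 U (Metric.ball 0 r') := by
  have h1 : DifferentiableOn ℝ U (Metric.ball 0 r') := fun z hz =>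
    (hC.U_der z hz).differentiableAt.differentiableWithinAt
  refine (contDiffOn_succ_iff_fderiv_of_isOpen (n := 0) Metric.isOpen_ball).2 ⟨h1, by simp, ?_⟩
  rw [contDiffOn_zero]
  have h2 : ∀ z ∈ Metric.ball (0 : ℂ) r', fderiv ℝ U z =
      Complex.reCLM.comp (ContinuousLinearMap.mul ℝ ℂ (S z)) := fun z hz => (hC.U_der z hz).fderiv
  refine ContinuousOn.congr ?_ h2
  exact continuousOn_const.clm_comp
    ((ContinuousLinearMap.mul ℝ ℂ).continuous.comp_continuousOn hC.S_smooth.continuousOn)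

end

end Pool.Agent.Run7.h606.SC
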